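import Pool.Agent.Helper31.LW.Goals

/-! # Packet LW-NEARX: the bodies `XF g w q s` are almost a simplex for small `s` -/

open MeasureTheory Set Filter Topology
open scoped ENNReal
open Pool.Agent.Helper47.AQ

noncomputable section

namespace Pool.Agent.Helper93.LW

open Pool.Agent.Helper31.LW

theorem simplex_homothety {n : ℕ} {S : Set (Fin n → ℝ)} (hS : IsSimplex S) (c : Fin n → ℝ) {t : ℝ}
    (ht : t ≠ 0) : IsSimplex (AffineMap.homothety c t '' S) := by
  have h := hS.affine (AffineEquiv.homothetyUnitsMulHom c (Units.mk0 t ht))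
  have h2 : ((AffineEquiv.homothetyUnitsMulHom c (Units.mk0 t ht) : (Fin n → ℝ) ≃ᵃ[ℝ] (Fin n → ℝ)) :
      (Fin n → ℝ) → (Fin n → ℝ)) = AffineMap.homothety c t := by
    simp
  rw [h2] at h
  exact h

theorem dl_cont {n k : ℕ} (g : Fin n → Fin k) (w : Fin n → ℝ) (q : Fin n) :
    Continuous (dl g w q) := by
  unfold dl
  fun_prop

theorem pa_cont {n k : ℕ} (g : Fin n → Fin k) (w : Fin n → ℝ) (q i : Fin n) :
    Continuous (fun s => pa g w q s i) := by
  unfold pa
  have hd := dl_cont g w q
  by_cases h1 : i = q
  · simp only [h1, if_true]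
    apply Continuous.add continuous_const
    apply continuous_pi
    intro l
    by_cases hl : l = q
    · subst hl
      simp only [Pi.single_eq_same]
      exact continuous_const.add hd
    · simp only [Pi.single_eq_of_ne hl]
      exact continuous_const
  · simp only [h1, if_false]
    by_cases h2 : g i = g q
    · simp only [h2, if_true]
      apply Continuous.add continuous_const
      apply continuous_pi
      intro l
      by_cases hl : l = q
      · subst hl
        simp only [Pi.single_eq_same]
        exact hd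
      · simp only [Pi.single_eq_of_ne hl]
        exact continuous_const
    · simp only [h2, if_false]
      exact continuous_const

theorem pb_cont {n k : ℕ} (g : Fin n → Fin k) (w : Fin n → ℝ) (q : Fin n) (j : Fin k) :
    Continuous (fun s => pb g w q s j) := by
  unfold pb
  have hd := dl_cont g w q
  by_cases h1 : j = g q
  · simp only [h1, if_true]
    apply Continuous.add continuous_const
    apply continuous_pi
    intro l
    by_cases hl : l = q
    · subst hl
      simp only [Pi.single_eq_same]
      exact hd.sub continuous_const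
    · simp only [Pi.single_eq_of_ne hl]
      exact continuous_const
  · simp only [h1, if_false]
    exact continuous_const

theorem gNEARX (hXV : XV) : NEARX := by
  intro n k g w q hw hwq hS ε hε
  set S := XF g w q 0 with hSdef
  obtain ⟨c, hc⟩ := hS.1
  -- choose eta
  have hη : ∃ η : ℝ, 0 < η ∧ (1 - ε) * (1 + η) ^ n ≤ 1 := by
    have hcont : Continuous (fun η : ℝ => (1 - ε) * (1 + η) ^ n) := by fun_prop
    have h0 : (1 - ε) * (1 + (0 : ℝ)) ^ n < 1 := by
      rw [add_zero, one_pow]
      linarith
    have hev : ∀ᶠ η in 𝓝 (0 : ℝ), (1 - ε) * (1 + η) ^ n < 1 :=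
      hcont.continuousAt.eventually_lt continuousAt_const h0
    have hev2 : ∀ᶠ η in 𝓝[>] (0 : ℝ), (1 - ε) * (1 + η) ^ n < 1 := hev.filter_mono nhdsWithin_le_nhds
    obtain ⟨η, h1, h2⟩ := (hev2.and self_mem_nhdsWithin).exists
    exact ⟨η, h2, h1.le⟩
  obtain ⟨η, hη0, hη1⟩ := hη
  set D : Set (Fin n → ℝ) := AffineMap.homothety c (1 + η) '' S with hD
  have hDs : IsSimplex D := simplex_homothety hS c (by linarith)
  have hSb := hS.isBody
  have hDb := hDs.isBody
  have hSD : S ⊆ interior D :=
    hSb.conv.subset_interior_image_homothety_of_one_lt hc (1 + η) (by linarith)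
  -- the points for small s
  have hpa0 : ∀ i, pa g w q 0 i ∈ interior D := by
    intro i
    apply hSD
    apply subset_convexHull
    exact Or.inl ⟨i, rfl⟩
  have hpb0 : ∀ j, pb g w q 0 j ∈ interior D := by
    intro j
    apply hSD
    apply subset_convexHull
    exact Or.inr ⟨j, rfl⟩
  have hev : ∀ᶠ s in 𝓝 (0 : ℝ), (∀ i, pa g w q s i ∈ interior D) ∧
      (∀ j, pb g w q s j ∈ interior D) := by
    rw [Filter.eventually_and]
    constructor
    · rw [Filter.eventually_all]
      intro i
      exact (pa_cont g w q i).continuousAt.eventually_mem (isOpen_interior.mem_nhds (hpa0 i))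
    · rw [Filter.eventually_all]
      intro j
      exact (pb_cont g w q j).continuousAt.eventually_mem (isOpen_interior.mem_nhds (hpb0 j))
  have hev2 : ∀ᶠ s in 𝓝[>] (0 : ℝ), ((∀ i, pa g w q s i ∈ interior D) ∧
      (∀ j, pb g w q s j ∈ interior D)) ∧ s < 1 := by
    apply Filter.Eventually.filter_mono nhdsWithin_le_nhds
    exact hev.and (eventually_lt_nhds one_pos)
  obtain ⟨s, ⟨⟨hs1, hs2⟩, hs3⟩, hs0⟩ := (hev2.and self_mem_nhdsWithin).exists
  have hs0' : 0 < s := hs0
  refine ⟨s, hs0', hs3, D, hDs, ?_, ?_⟩
  · apply convexHull_min _ hDb.conv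
    rintro x (⟨i, rfl⟩ | ⟨j, rfl⟩)
    · exact interior_subset (hs1 i)
    · exact interior_subset (hs2 j)
  · have hv1 : volume (XF g w q s) = volume S := hXV n k g w q hw hwq s ⟨hs0'.le, hs3.le⟩
    have hv2 : volume D = ENNReal.ofReal ((1 + η) ^ n) * volume S := by
      rw [hD, Measure.addHaar_image_homothety, Module.finrank_fintype_fun_eq_card,
        Fintype.card_fin, abs_of_pos (pow_pos (by linarith) n)]
    rw [hv1, hv2, ENNReal.toReal_mul, ENNReal.toReal_ofReal (pow_pos (by linarith) n).le]
    have h3 : 0 ≤ (volume S).toReal := ENNReal.toReal_nonneg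
    nlinarith [mul_le_mul_of_nonneg_right hη1 h3]

end Pool.Agent.Helper93.LW
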